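import Pool.Agent.N699.AO.Stm

set_option autoImplicit false

/-! AO/WEY2 (project of helper699, MP_1e1427_nt): the sum of `min (L, 1 / (2 ‖u α‖))`. -/

namespace Pool.Agent.N118.AO
open Finset Pool.Agent.N699.AO

theorem mm_le_L (L : ℕ) (x : ℝ) : mm L x ≤ L := by
  unfold mm
  split_ifs with h
  · exact le_refl _
  · rw [not_le] at h
    have hL : (0 : ℝ) ≤ L := Nat.cast_nonneg L
    have hd : 0 ≤ |x - round x| := abs_nonneg _
    have hd' : 0 < |x - round x| := by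
      rcases hd.lt_or_eq with h1 | h1
      · exact h1
      · rw [← h1, zero_mul] at h
        linarith
    rw [div_le_iff₀ (by positivity)]
    nlinarith

theorem mm_le_inv (L : ℕ) (x δ : ℝ) (hδ : 0 < δ) (h : δ ≤ |x - round x|) :
    mm L x ≤ 1 / (2 * δ) := by
  have hL : (0 : ℝ) ≤ L := Nat.cast_nonneg L
  unfold mm
  split_ifs with h1
  · rw [le_div_iff₀ (by positivity)]
    nlinarith [mul_le_mul_of_nonneg_right h (by positivity : (0 : ℝ) ≤ 2 * L)]
  · exact one_div_le_one_div_of_le (by positivity) (by linarith)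

theorem mmi (L Q : ℕ) (N r : ℤ) (hr1 : 1 ≤ r) (hr2 : r + 1 ≤ Q) (t : ℝ)
    (ht : |t| ≤ 1 / (4 * Q)) :
    mm L (N + r / Q + t) ≤ 2 / 3 * ((Q : ℝ) / r + Q / (Q - r)) := by
  have hr1' : (1 : ℝ) ≤ r := by exact_mod_cast hr1
  have hr2' : (r : ℝ) + 1 ≤ Q := by exact_mod_cast hr2
  have hQ : (0 : ℝ) < Q := by linarith
  have hr0 : (0 : ℝ) < r := by linarith
  have hs0 : (0 : ℝ) < Q - r := by linarith
  obtain ⟨ht1, ht2⟩ := abs_le.1 ht
  have h4 : 1 / (4 * (Q : ℝ)) = 1 / 4 * (1 / Q) := by field_simp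
  rw [h4] at ht1 ht2
  obtain ⟨x, hx⟩ : ∃ x : ℝ, x = N + r / Q + t := ⟨_, rfl⟩
  rw [← hx]
  rcases le_or_gt (round x) N with h | h
  · have h' : ((round x : ℤ) : ℝ) ≤ N := by exact_mod_cast h
    have hd : 3 / 4 * ((r : ℝ) / Q) ≤ |x - round x| := by
      refine le_trans ?_ (le_abs_self _)
      have h5 : (1 : ℝ) / Q ≤ r / Q := div_le_div_of_nonneg_right hr1' hQ.le
      linarith
    have h5 := mm_le_inv L x _ (by positivity) hd
    refine h5.trans ?_
    have h6 : 1 / (2 * (3 / 4 * ((r : ℝ) / Q))) = 2 / 3 * (Q / r) := by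
      field_simp
      norm_num
    rw [h6]
    have : 0 ≤ (Q : ℝ) / (Q - r) := by positivity
    linarith
  · have h' : (N : ℝ) + 1 ≤ (round x : ℤ) := by exact_mod_cast h
    have h7 : ((Q : ℝ) - r) / Q = 1 - r / Q := by field_simp
    have hd : 3 / 4 * (((Q : ℝ) - r) / Q) ≤ |x - round x| := by
      refine le_trans ?_ (neg_le_abs _)
      have h5 : (1 : ℝ) / Q ≤ (Q - r) / Q := div_le_div_of_nonneg_right (by linarith) hQ.le
      rw [h7] at h5 ⊢
      linarith
    have h5 := mm_le_inv L x _ (by positivity) hd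
    refine h5.trans ?_
    have h6 : 1 / (2 * (3 / 4 * (((Q : ℝ) - r) / Q))) = 2 / 3 * (Q / (Q - r)) := by
      field_simp
      norm_num
    rw [h6]
    have : 0 ≤ (Q : ℝ) / r := by positivity
    linarith

/-- the residue of `u c` modulo `Q` -/
def R (c : ℤ) (Q u : ℕ) : ℕ := (((u : ℤ) * c) % Q).toNat

/-- the bound for the residue `r` -/
noncomputable def G (Q r : ℕ) : ℝ := if r = 0 then 0 else 2 / 3 * ((Q : ℝ) / r + Q / (Q - r))

theorem R_cast (c : ℤ) (Q u : ℕ) (hQ : 1 ≤ Q) : (R c Q u : ℤ) = ((u : ℤ) * c) % Q := by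
  unfold R
  exact Int.toNat_of_nonneg (Int.emod_nonneg _ (by omega))

theorem R_lt (c : ℤ) (Q u : ℕ) (hQ : 1 ≤ Q) : R c Q u < Q := by
  have h1 := R_cast c Q u hQ
  have h2 : ((u : ℤ) * c) % Q < Q := Int.emod_lt_of_pos _ (by omega)
  omega

theorem G_nonneg (Q r : ℕ) (h : r < Q) : 0 ≤ G Q r := by
  unfold G
  split_ifs with h0
  · exact le_refl _
  · have h1 : (0 : ℝ) < (Q : ℝ) - r := by
      have : (r : ℝ) < Q := by exact_mod_cast h
      linarith
    positivity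

theorem R_per (c : ℤ) (Q m u : ℕ) : R c Q (Q * m + u) = R c Q u := by
  unfold R
  congr 1
  have : (((Q * m + u : ℕ) : ℤ) * c) = u * c + Q * (m * c) := by
    push_cast
    ring
  rw [this, Int.add_mul_emod_self_left]

theorem R_inj (c : ℤ) (Q : ℕ) (hQ : 1 ≤ Q) (hc : IsCoprime c (Q : ℤ)) :
    ∀ u ∈ range Q, ∀ v ∈ range Q, R c Q u = R c Q v → u = v := by
  intro u hu v hv h
  have hu' := mem_range.1 hu
  have hv' := mem_range.1 hv
  have h1 : ((u : ℤ) * c) % Q = ((v : ℤ) * c) % Q := by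
    rw [← R_cast c Q u hQ, ← R_cast c Q v hQ, h]
  have h2 : (Q : ℤ) ∣ (u : ℤ) * c - v * c := Int.dvd_of_emod_eq_zero (by
    rw [Int.sub_emod, h1, sub_self, Int.zero_emod])
  rw [← sub_mul] at h2
  have h3 : (Q : ℤ) ∣ (u : ℤ) - v := hc.symm.dvd_of_dvd_mul_right h2
  obtain ⟨k, hk⟩ := h3
  have hk0 : k = 0 := by
    by_contra hne
    rcases lt_or_gt_of_ne hne with h4 | h4
    · have : (Q : ℤ) * k ≤ -Q := by nlinarith
      omega
    · have : (Q : ℤ) ≤ Q * k := by nlinarith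
      omega
  rw [hk0, mul_zero] at hk
  omega

theorem sum_blocks (Q : ℕ) (g : ℕ → ℝ) (hg : ∀ m u, g (Q * m + u) = g u) (m : ℕ) :
    ∑ u ∈ range (Q * m), g u = m * ∑ u ∈ range Q, g u := by
  induction m with
  | zero => simp
  | succ m ih =>
    rw [Nat.mul_succ, Finset.sum_range_add, ih]
    simp only [hg]
    push_cast
    ring

theorem sum_G (n : ℕ) : ∑ r ∈ range (n + 1), G (n + 1) r ≤
    4 / 3 * ((n : ℝ) + 1) * (1 + Real.log n) := by
  rw [Finset.sum_range_succ']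
  have h0 : G (n + 1) 0 = 0 := by
    unfold G
    rw [if_pos rfl]
  rw [h0, add_zero]
  obtain ⟨hh, hhd⟩ : ∃ hh : ℝ, hh = ∑ i ∈ range n, (1 : ℝ) / (i + 1) := ⟨_, rfl⟩
  have hr : ∑ i ∈ range n, (1 : ℝ) / (n - i) = hh := by
    rw [hhd, ← Finset.sum_range_reflect (fun i => (1 : ℝ) / (i + 1)) n]
    refine Finset.sum_congr rfl fun i hi => ?_
    have hi' := mem_range.1 hi
    have : ((n - 1 - i : ℕ) : ℝ) = n - 1 - i := by
      rw [Nat.cast_sub (by omega), Nat.cast_sub (by omega)]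
      norm_num
    rw [this]
    congr 1
    ring
  have h1 : ∑ i ∈ range n, G (n + 1) (i + 1) =
      2 / 3 * ((n : ℝ) + 1) * (hh + hh) := by
    nth_rewrite 2 [← hr]
    rw [hhd, ← Finset.sum_add_distrib, Finset.mul_sum]
    refine Finset.sum_congr rfl fun i _ => ?_
    unfold G
    rw [if_neg (Nat.succ_ne_zero i)]
    push_cast
    have : (n : ℝ) + 1 - (i + 1) = n - i := by ring
    rw [this]
    ring
  rw [h1]
  have h2 : hh ≤ 1 + Real.log n := by
    have h3 := harmonic_le_one_add_log n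
    refine le_trans (le_of_eq ?_) h3
    rw [hhd]
    unfold harmonic
    push_cast
    exact Finset.sum_congr rfl fun i _ => by rw [one_div]
  have h3 : 0 ≤ 2 / 3 * ((n : ℝ) + 1) := by positivity
  nlinarith [mul_le_mul_of_nonneg_left h2 h3]

/-- the terms which are not multiples of `Q` -/
theorem part1 (L Q : ℕ) (hL : 1 ≤ L) (hQ : 1 ≤ Q) (hQL : Q ≤ 8 * L) (c : ℤ)
    (hc : IsCoprime c (Q : ℤ)) (β : ℝ) (hβ : |β| ≤ 1 / (Q * (8 * L))) :
    ∑ u ∈ (Icc 1 (2 * L)).filter (fun u => ¬ Q ∣ u), mm L (u * (c / Q + β)) ≤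
      107 * (L * (1 + Real.log L)) := by
  have hL' : (1 : ℝ) ≤ L := by exact_mod_cast hL
  have hQ' : (1 : ℝ) ≤ Q := by exact_mod_cast hQ
  have hlog : 0 ≤ Real.log L := Real.log_nonneg hL'
  have hterm : ∀ u ∈ (Icc 1 (2 * L)).filter (fun u => ¬ Q ∣ u),
      mm L (u * (c / Q + β)) ≤ G Q (R c Q u) := by
    intro u hu
    rw [mem_filter, mem_Icc] at hu
    obtain ⟨⟨hu1, hu2⟩, hu3⟩ := hu
    have hR := R_cast c Q u hQ
    have hRl := R_lt c Q u hQ
    have hR0 : R c Q u ≠ 0 := by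
      intro h0
      rw [h0] at hR
      have h2 : (Q : ℤ) ∣ (u : ℤ) * c := Int.dvd_of_emod_eq_zero hR.symm
      have h3 : (Q : ℤ) ∣ (u : ℤ) := hc.symm.dvd_of_dvd_mul_right h2
      exact hu3 (Int.natCast_dvd_natCast.1 h3)
    have hdiv : (u : ℤ) * c = Q * ((u * c) / Q) + R c Q u := by
      rw [hR]
      exact (Int.mul_ediv_add_emod _ _).symm
    obtain ⟨N, hN⟩ : ∃ N : ℤ, N = (u * c) / Q := ⟨_, rfl⟩
    rw [← hN] at hdiv
    have hdiv' : (u : ℝ) * c = Q * N + R c Q u := by exact_mod_cast hdiv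
    have hx : (u : ℝ) * (c / Q + β) = N + ((R c Q u : ℤ) : ℝ) / Q + u * β := by
      have : (u : ℝ) * (c / Q + β) = (u * c) / Q + u * β := by ring
      rw [this, hdiv']
      push_cast
      field_simp
    have ht : |(u : ℝ) * β| ≤ 1 / (4 * Q) := by
      rw [abs_mul, Nat.abs_cast]
      have hu2' : (u : ℝ) ≤ 2 * L := by exact_mod_cast hu2
      calc (u : ℝ) * |β| ≤ (2 * L) * (1 / (Q * (8 * L))) :=
            mul_le_mul hu2' hβ (abs_nonneg _) (by positivity)
        _ = 1 / (4 * Q) := by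
            field_simp
            norm_num
    have := mmi L Q N (R c Q u) (by omega) (by omega) _ ht
    rw [hx]
    refine this.trans (le_of_eq ?_)
    unfold G
    rw [if_neg hR0]
    push_cast
    rfl
  have hm : 2 * L < Q * (2 * L / Q + 1) := Nat.lt_mul_div_succ (2 * L) (by omega)
  calc ∑ u ∈ (Icc 1 (2 * L)).filter (fun u => ¬ Q ∣ u), mm L (u * (c / Q + β))
      ≤ ∑ u ∈ (Icc 1 (2 * L)).filter (fun u => ¬ Q ∣ u), G Q (R c Q u) :=
        Finset.sum_le_sum hterm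
    _ ≤ ∑ u ∈ range (Q * (2 * L / Q + 1)), G Q (R c Q u) := by
        refine Finset.sum_le_sum_of_subset_of_nonneg ?_ fun u _ _ => G_nonneg Q _ (R_lt c Q u hQ)
        intro u hu
        rw [mem_filter, mem_Icc] at hu
        exact mem_range.2 (by omega)
    _ = ((2 * L / Q + 1 : ℕ) : ℝ) * ∑ u ∈ range Q, G Q (R c Q u) :=
        sum_blocks Q _ (fun m u => by rw [R_per]) _
    _ ≤ ((2 * L / Q + 1 : ℕ) : ℝ) * ∑ r ∈ range Q, G Q r := by
        refine mul_le_mul_of_nonneg_left ?_ (Nat.cast_nonneg _)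
        rw [← Finset.sum_image (f := fun r => G Q r) (g := R c Q) (R_inj c Q hQ hc)]
        refine Finset.sum_le_sum_of_subset_of_nonneg ?_ fun r hr _ =>
          G_nonneg Q r (mem_range.1 hr)
        intro r hr
        obtain ⟨u, _, rfl⟩ := mem_image.1 hr
        exact mem_range.2 (R_lt c Q u hQ)
    _ ≤ ((2 * L / Q + 1 : ℕ) : ℝ) * (4 / 3 * Q * (8 * (1 + Real.log L))) := by
        refine mul_le_mul_of_nonneg_left ?_ (Nat.cast_nonneg _)
        obtain ⟨n, rfl⟩ : ∃ n, Q = n + 1 := ⟨Q - 1, by omega⟩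
        refine (sum_G n).trans ?_
        push_cast
        refine mul_le_mul_of_nonneg_left ?_ (by positivity)
        rcases Nat.eq_zero_or_pos n with h0 | h0
        · rw [h0, Nat.cast_zero, Real.log_zero]
          linarith
        · have hn : (0 : ℝ) < n := by exact_mod_cast h0
          have h1 : Real.log n ≤ Real.log (8 * L) := Real.log_le_log hn (by
            have : n ≤ 8 * L := by omega
            exact_mod_cast this)
          have h2 : Real.log (8 * L) = Real.log 8 + Real.log L :=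
            Real.log_mul (by norm_num) (by positivity)
          have h3 : Real.log 8 ≤ 8 - 1 := Real.log_le_sub_one_of_pos (by norm_num)
          linarith
    _ = (((2 * L / Q + 1 : ℕ) : ℝ) * Q) * (32 / 3 * (1 + Real.log L)) := by ring
    _ ≤ (10 * L) * (32 / 3 * (1 + Real.log L)) := by
        refine mul_le_mul_of_nonneg_right ?_ (by positivity)
        have h1 : (2 * L / Q + 1) * Q ≤ 10 * L := by
          have := Nat.div_mul_le_self (2 * L) Q
          rw [Nat.add_mul, one_mul]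
          omega
        exact_mod_cast h1
    _ ≤ 107 * (L * (1 + Real.log L)) := by
        have : 0 ≤ L * (1 + Real.log L) := by positivity
        nlinarith

theorem sum_pow (J : ℕ) : ∑ j ∈ Icc 1 J, (j : ℝ) ^ (-(3 / 4) : ℝ) ≤ 4 * (J : ℝ) ^ (1 / 4 : ℝ) := by
  induction J with
  | zero =>
    simp
  | succ J ih =>
    rw [Finset.sum_Icc_succ_top (by omega)]
    have hJ1 : (0 : ℝ) < ((J + 1 : ℕ) : ℝ) := by positivity
    obtain ⟨a, ha⟩ : ∃ a : ℝ, a = (J : ℝ) ^ (1 / 4 : ℝ) := ⟨_, rfl⟩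
    obtain ⟨b, hb⟩ : ∃ b : ℝ, b = ((J + 1 : ℕ) : ℝ) ^ (1 / 4 : ℝ) := ⟨_, rfl⟩
    have ha0 : 0 ≤ a := by rw [ha]; positivity
    have hb0 : 0 < b := by rw [hb]; positivity
    have ha4 : a ^ 4 = J := by
      rw [ha, ← Real.rpow_natCast, ← Real.rpow_mul (Nat.cast_nonneg J)]
      norm_num
    have hb4 : b ^ 4 = J + 1 := by
      rw [hb, ← Real.rpow_natCast, ← Real.rpow_mul hJ1.le]
      norm_num
    have hab : a ≤ b := by
      rw [ha, hb]
      exact Real.rpow_le_rpow (Nat.cast_nonneg J) (by push_cast; linarith) (by norm_num)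
    have hb3 : ((J + 1 : ℕ) : ℝ) ^ (-(3 / 4) : ℝ) = 1 / b ^ 3 := by
      rw [Real.rpow_neg hJ1.le, one_div, hb, ← Real.rpow_natCast, ← Real.rpow_mul hJ1.le]
      norm_num
    rw [hb3, ← hb]
    rw [← ha] at ih
    have h1 : 1 ≤ 4 * b ^ 3 * (b - a) := by
      have h2 : b ^ 4 - a ^ 4 = 1 := by
        rw [hb4, ha4]
        ring
      have h3 : b ^ 4 - a ^ 4 = (b - a) * (b ^ 3 + b ^ 2 * a + b * a ^ 2 + a ^ 3) := by ring
      have h4 : b ^ 3 + b ^ 2 * a + b * a ^ 2 + a ^ 3 ≤ 4 * b ^ 3 := by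
        have e1 : b ^ 2 * a ≤ b ^ 2 * b := mul_le_mul_of_nonneg_left hab (by positivity)
        have e2 : a ^ 2 ≤ b ^ 2 := pow_le_pow_left₀ ha0 hab 2
        have e3 : b * a ^ 2 ≤ b * b ^ 2 := mul_le_mul_of_nonneg_left e2 hb0.le
        have e4 : a ^ 3 ≤ b ^ 3 := pow_le_pow_left₀ ha0 hab 3
        nlinarith
      have h5 : 0 ≤ b - a := by linarith
      calc (1 : ℝ) = (b - a) * (b ^ 3 + b ^ 2 * a + b * a ^ 2 + a ^ 3) := by rw [← h3, h2]
        _ ≤ (b - a) * (4 * b ^ 3) := mul_le_mul_of_nonneg_left h4 h5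
        _ = _ := by ring
    have h6 : 1 / b ^ 3 ≤ 4 * (b - a) := by
      rw [div_le_iff₀ (by positivity)]
      linarith
    linarith

/-- the multiples of `Q` -/
theorem part2 (L Q : ℕ) (hL : 1 ≤ L) (hQ : 1 ≤ Q) (c : ℤ) (β : ℝ)
    (hβ : |β| ≤ 1 / (Q * (8 * L))) :
    ∑ u ∈ (Icc 1 (2 * L)).filter (fun u => Q ∣ u), mm L (u * (c / Q + β)) ≤
      16 * ((L : ℝ) ^ 2 / Q * (1 + (L : ℝ) ^ 2 * |β|) ^ (-(3 / 4) : ℝ)) := by
  have hL' : (1 : ℝ) ≤ L := by exact_mod_cast hL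
  have hQ' : (1 : ℝ) ≤ Q := by exact_mod_cast hQ
  have hL0 : (0 : ℝ) < L := by linarith
  have hQ0 : (0 : ℝ) < Q := by linarith
  obtain ⟨J, hJ⟩ : ∃ J : ℕ, J = 2 * L / Q := ⟨_, rfl⟩
  have hJr : (J : ℝ) ≤ 2 * L / Q := by
    rw [hJ]
    have := @Nat.cast_div_le ℝ _ _ _ (2 * L) Q
    push_cast at this
    exact this
  obtain ⟨v, hv⟩ : ∃ v : ℝ, v = (L : ℝ) ^ 2 * |β| := ⟨_, rfl⟩
  have hv0 : 0 ≤ v := by
    rw [hv]
    positivity
  rw [← hv]
  have hset : (Icc 1 (2 * L)).filter (fun u => Q ∣ u) = (Icc 1 J).image (fun j => Q * j) := by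
    ext u
    rw [mem_filter, mem_Icc, mem_image]
    constructor
    · rintro ⟨⟨h1, h2⟩, j, rfl⟩
      refine ⟨j, mem_Icc.2 ⟨?_, ?_⟩, rfl⟩
      · rcases Nat.eq_zero_or_pos j with h0 | h0
        · rw [h0, mul_zero] at h1
          omega
        · exact h0
      · rw [hJ]
        exact (Nat.le_div_iff_mul_le (by omega)).2 (by rw [mul_comm]; exact h2)
    · rintro ⟨j, hj, rfl⟩
      rw [mem_Icc] at hj
      have h3 : Q * j ≤ 2 * L := by
        have := (Nat.le_div_iff_mul_le (by omega : 0 < Q)).1 (hJ ▸ hj.2)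
        rw [mul_comm]
        exact this
      exact ⟨⟨Nat.mul_pos (by omega) (by omega), h3⟩, dvd_mul_right _ _⟩
  rw [hset, Finset.sum_image (by
    intro a _ b _ h
    exact Nat.eq_of_mul_eq_mul_left (by omega) h)]
  have hcase1 : v ≤ 1 → ∑ j ∈ Icc 1 J, mm L (((Q * j : ℕ) : ℝ) * (c / Q + β)) ≤
      16 * ((L : ℝ) ^ 2 / Q * (1 + v) ^ (-(3 / 4) : ℝ)) := by
    intro hv1
    have h1 : ∑ j ∈ Icc 1 J, mm L (((Q * j : ℕ) : ℝ) * (c / Q + β)) ≤ J * L := by
      calc _ ≤ ∑ _j ∈ Icc 1 J, (L : ℝ) := Finset.sum_le_sum fun j _ => mm_le_L L _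
        _ = J * L := by
            rw [Finset.sum_const, Nat.card_Icc, nsmul_eq_mul]
            norm_num
    have h2 : (J : ℝ) * L ≤ 2 * (L ^ 2 / Q) := by
      calc (J : ℝ) * L ≤ (2 * L / Q) * L := mul_le_mul_of_nonneg_right hJr hL0.le
        _ = _ := by ring
    have h3 : 1 / 2 ≤ (1 + v) ^ (-(3 / 4) : ℝ) := by
      have e1 : (1 / 2 : ℝ) = (2 : ℝ) ^ (-1 : ℝ) := by
        rw [Real.rpow_neg_one]
        norm_num
      rw [e1]
      calc (2 : ℝ) ^ (-1 : ℝ) ≤ (1 + v) ^ (-1 : ℝ) :=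
            Real.rpow_le_rpow_of_nonpos (by linarith) (by linarith) (by norm_num)
        _ ≤ (1 + v) ^ (-(3 / 4) : ℝ) :=
            Real.rpow_le_rpow_of_exponent_le (by linarith) (by norm_num)
    have h4 : 0 ≤ (L : ℝ) ^ 2 / Q := by positivity
    have h5 := mul_le_mul_of_nonneg_left h3 h4
    linarith
  have hcase2 : 1 ≤ v → ∑ j ∈ Icc 1 J, mm L (((Q * j : ℕ) : ℝ) * (c / Q + β)) ≤
      16 * ((L : ℝ) ^ 2 / Q * (1 + v) ^ (-(3 / 4) : ℝ)) := by
    intro hv1
    have hvp : 0 < v := by linarith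
    have hβ0 : 0 < |β| := by
      rcases (abs_nonneg β).lt_or_eq with h | h
      · exact h
      · rw [← h, mul_zero] at hv
        linarith
    have hterm : ∀ j ∈ Icc 1 J, mm L (((Q * j : ℕ) : ℝ) * (c / Q + β)) ≤
        L * ((2 * L / Q) ^ (3 / 4 : ℝ) * v ^ (-(3 / 4) : ℝ)) * (j : ℝ) ^ (-(3 / 4) : ℝ) := by
      intro j hj
      rw [mem_Icc] at hj
      have hj1 : (1 : ℝ) ≤ j := by exact_mod_cast hj.1
      have hj0 : (0 : ℝ) < j := by linarith
      have hjJ : (j : ℝ) ≤ 2 * L / Q := le_trans (by exact_mod_cast hj.2) hJr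
      have hx : (((Q * j : ℕ) : ℝ) * (c / Q + β)) = ((c * j : ℤ) : ℝ) + Q * j * β := by
        push_cast
        field_simp
      have hsmall : |(Q : ℝ) * j * β| ≤ 1 / 4 := by
        rw [abs_mul, abs_of_pos (by positivity : (0 : ℝ) < Q * j)]
        have h1 : (Q : ℝ) * j ≤ 2 * L := by
          calc (Q : ℝ) * j ≤ Q * (2 * L / Q) := mul_le_mul_of_nonneg_left hjJ hQ0.le
            _ = 2 * L := by field_simp
        calc (Q : ℝ) * j * |β| ≤ (2 * L) * (1 / (Q * (8 * L))) :=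
              mul_le_mul h1 hβ (abs_nonneg _) (by positivity)
          _ = 1 / 4 * (1 / Q) := by
              field_simp
              norm_num
          _ ≤ 1 / 4 * 1 := by
              refine mul_le_mul_of_nonneg_left ?_ (by norm_num)
              rw [div_le_one hQ0]
              exact hQ'
          _ = 1 / 4 := by norm_num
      have hdist : (Q : ℝ) * j * |β| ≤
          |(((c * j : ℤ) : ℝ) + Q * j * β) - round (((c * j : ℤ) : ℝ) + Q * j * β)| := by
        obtain ⟨n, hn⟩ : ∃ n : ℤ, n = round (((c * j : ℤ) : ℝ) + Q * j * β) := ⟨_, rfl⟩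
        rw [← hn]
        have habs : (Q : ℝ) * j * |β| = |(Q : ℝ) * j * β| := by
          rw [abs_mul, abs_of_pos (by positivity : (0 : ℝ) < Q * j)]
        rw [habs]
        by_cases hcn : n = c * j
        · rw [hcn]
          have : ((c * j : ℤ) : ℝ) + Q * j * β - ((c * j : ℤ) : ℝ) = Q * j * β := by ring
          rw [this]
        · have h1 : (1 : ℝ) ≤ |((c * j - n : ℤ) : ℝ)| := by
            have h2 : c * j - n ≠ 0 := sub_ne_zero.2 fun h => hcn h.symm
            have h3 : (1 : ℤ) ≤ |c * j - n| := Int.one_le_abs h2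
            exact_mod_cast h3
          have h4 : |((c * j - n : ℤ) : ℝ)| - |(Q : ℝ) * j * β| ≤
              |((c * j - n : ℤ) : ℝ) + Q * j * β| := by
            have := abs_sub_abs_le_abs_sub ((c * j - n : ℤ) : ℝ) (-((Q : ℝ) * j * β))
            rw [abs_neg, sub_neg_eq_add] at this
            exact this
          have h5 : ((c * j : ℤ) : ℝ) + Q * j * β - n = ((c * j - n : ℤ) : ℝ) + Q * j * β := by
            push_cast
            ring
          rw [h5]
          linarith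
      rw [hx]
      obtain ⟨y, hy⟩ : ∃ y : ℝ, y = L / (2 * Q * j * v) := ⟨_, rfl⟩
      have hy0 : 0 < y := by
        rw [hy]
        positivity
      have hyb : mm L (((c * j : ℤ) : ℝ) + Q * j * β) ≤ L * y ^ (3 / 4 : ℝ) := by
        rcases le_total y 1 with h | h
        · have h1 := mm_le_inv L _ _ (by positivity) hdist
          refine h1.trans ?_
          have h2 : 1 / (2 * ((Q : ℝ) * j * |β|)) = L * y := by
            rw [hy, hv]
            field_simp
          rw [h2]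
          refine mul_le_mul_of_nonneg_left ?_ hL0.le
          calc y = y ^ (1 : ℝ) := (Real.rpow_one y).symm
            _ ≤ y ^ (3 / 4 : ℝ) := Real.rpow_le_rpow_of_exponent_ge hy0 h (by norm_num)
        · refine (mm_le_L L _).trans ?_
          have h1 : 1 ≤ y ^ (3 / 4 : ℝ) := Real.one_le_rpow h (by norm_num)
          nlinarith
      refine hyb.trans ?_
      rw [mul_assoc]
      refine mul_le_mul_of_nonneg_left ?_ hL0.le
      have hy2 : y ≤ (2 * L / Q) * (v * j)⁻¹ := by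
        rw [hy]
        have : L / (2 * Q * j * v) = 1 / 4 * ((2 * L / Q) * (v * (j : ℝ))⁻¹) := by
          field_simp
          norm_num
        rw [this]
        have h0 : 0 ≤ (2 * L / Q) * (v * (j : ℝ))⁻¹ := by positivity
        linarith
      calc y ^ (3 / 4 : ℝ) ≤ ((2 * L / Q) * (v * j)⁻¹) ^ (3 / 4 : ℝ) :=
            Real.rpow_le_rpow hy0.le hy2 (by norm_num)
        _ = (2 * L / Q) ^ (3 / 4 : ℝ) * v ^ (-(3 / 4) : ℝ) * (j : ℝ) ^ (-(3 / 4) : ℝ) := by
            rw [Real.mul_rpow (by positivity) (by positivity), Real.inv_rpow (by positivity),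
              ← Real.rpow_neg (by positivity), Real.mul_rpow hvp.le hj0.le]
            ring
    have hsum : ∑ j ∈ Icc 1 J, mm L (((Q * j : ℕ) : ℝ) * (c / Q + β)) ≤
        8 * ((L : ℝ) ^ 2 / Q * v ^ (-(3 / 4) : ℝ)) := by
      calc _ ≤ ∑ j ∈ Icc 1 J, L * ((2 * L / Q) ^ (3 / 4 : ℝ) * v ^ (-(3 / 4) : ℝ)) *
            (j : ℝ) ^ (-(3 / 4) : ℝ) := Finset.sum_le_sum hterm
        _ = L * ((2 * L / Q) ^ (3 / 4 : ℝ) * v ^ (-(3 / 4) : ℝ)) *
            ∑ j ∈ Icc 1 J, (j : ℝ) ^ (-(3 / 4) : ℝ) := by rw [Finset.mul_sum]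
        _ ≤ L * ((2 * L / Q) ^ (3 / 4 : ℝ) * v ^ (-(3 / 4) : ℝ)) *
            (4 * (2 * L / Q : ℝ) ^ (1 / 4 : ℝ)) := by
            refine mul_le_mul_of_nonneg_left ?_ (by positivity)
            refine (sum_pow J).trans (mul_le_mul_of_nonneg_left ?_ (by norm_num))
            exact Real.rpow_le_rpow (Nat.cast_nonneg J) hJr (by norm_num)
        _ = 4 * L * v ^ (-(3 / 4) : ℝ) *
            ((2 * L / Q : ℝ) ^ (3 / 4 : ℝ) * (2 * L / Q : ℝ) ^ (1 / 4 : ℝ)) := by ring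
        _ = 8 * ((L : ℝ) ^ 2 / Q * v ^ (-(3 / 4) : ℝ)) := by
            rw [← Real.rpow_add (by positivity)]
            norm_num
            ring
    have h3 : v ^ (-(3 / 4) : ℝ) ≤ 2 * (1 + v) ^ (-(3 / 4) : ℝ) := by
      have e1 : (2 * v) ^ (-(3 / 4) : ℝ) ≤ (1 + v) ^ (-(3 / 4) : ℝ) :=
        Real.rpow_le_rpow_of_nonpos (by linarith) (by linarith) (by norm_num)
      rw [Real.mul_rpow (by norm_num) hvp.le] at e1
      have e2 : (1 / 2 : ℝ) ≤ (2 : ℝ) ^ (-(3 / 4) : ℝ) := by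
        have e3 : (1 / 2 : ℝ) = (2 : ℝ) ^ (-1 : ℝ) := by
          rw [Real.rpow_neg_one]
          norm_num
        rw [e3]
        exact Real.rpow_le_rpow_of_exponent_le (by norm_num) (by norm_num)
      have e4 : 0 ≤ v ^ (-(3 / 4) : ℝ) := by positivity
      nlinarith [mul_le_mul_of_nonneg_right e2 e4]
    have h4 : 0 ≤ (L : ℝ) ^ 2 / Q := by positivity
    have h5 := mul_le_mul_of_nonneg_left h3 h4
    linarith
  rcases le_total v 1 with h | h
  · exact hcase1 h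
  · exact hcase2 h

theorem t_WEY2 : WEY2 := by
  refine ⟨107, by norm_num, ?_⟩
  intro L Q hL hQ hQL c hc β hβ
  rw [← Finset.sum_filter_add_sum_filter_not (Icc 1 (2 * L)) (fun u => Q ∣ u)]
  have h1 := part1 L Q hL hQ hQL c hc β hβ
  have h2 := part2 L Q hL hQ c β hβ
  have h3 : 0 ≤ (L : ℝ) ^ 2 / Q * (1 + (L : ℝ) ^ 2 * |β|) ^ (-(3 / 4) : ℝ) := by positivity
  linarith

end Pool.Agent.N118.AO
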